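import Mathlib

set_option autoImplicit false

open Cardinal Set

namespace Pool.Agent.Results.MP_8a117e_lc.KappaSurjective

/-- `L ↠ K`: there is a weakly order preserving surjection from `L` onto `K`. -/
def Surjects (L K : Set ℝ) : Prop := ∃ f : L → K, Monotone f ∧ Function.Surjective f

/-- `L` surjects onto each of its nonempty suborders. -/
def StronglySurjective (L : Set ℝ) : Prop := ∀ K : Set ℝ, K ⊆ L → K.Nonempty → Surjects L K

/-- `L` has size at least `κ` and surjects onto each of its nonempty suborders of size `κ`. -/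
def IsKappaSurjective (κ : Cardinal.{0}) (L : Set ℝ) : Prop :=
  κ ≤ #L ∧ ∀ K : Set ℝ, K ⊆ L → K.Nonempty → #K = κ → Surjects L K

lemma aleph0_le {κ : Cardinal.{0}} (hκ : ℵ₀ < κ.ord.cof) : ℵ₀ ≤ κ := by
  have h := Ordinal.cof_le_card κ.ord
  rw [Cardinal.card_ord] at h
  exact (hκ.trans_le h).le

lemma small_iUnion {κ : Cardinal.{0}} (hκ : ℵ₀ < κ.ord.cof) (A : ℚ → Set ℝ)
    (hA : ∀ q, #(A q) < κ) : #(⋃ q, A q) < κ := by
  refine (Cardinal.mk_iUnion_le_sum_mk).trans_lt ?_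
  refine (Cardinal.sum_le_mk_mul_iSup _).trans_lt ?_
  refine Cardinal.mul_lt_of_lt (aleph0_le hκ) ?_ ?_
  · have h := Ordinal.cof_le_card κ.ord
    rw [Cardinal.card_ord] at h
    rw [Cardinal.mkRat]
    exact hκ.trans_le h
  · exact Cardinal.iSup_lt_of_lt_cof_ord (by rwa [Cardinal.mkRat]) hA

lemma diff_large {κ : Cardinal.{0}} (hκ : ℵ₀ ≤ κ) {A B : Set ℝ} (hA : κ ≤ #A) (hB : #B < κ) :
    κ ≤ #(A \ B : Set ℝ) := by
  by_contra h
  have h1 := Cardinal.add_lt_of_lt hκ (not_le.1 h) hB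
  exact absurd ((Cardinal.le_mk_sdiff_add_mk A B).trans_lt h1) (not_lt.2 hA)

/-- A large set of reals has a large subset all of whose points have many points below them. -/
lemma exists_core {κ : Cardinal.{0}} (hκ : ℵ₀ < κ.ord.cof) (L : Set ℝ) (hL : κ ≤ #L) :
    ∃ M ⊆ L, κ ≤ #M ∧ ∀ z ∈ M, κ ≤ #(M ∩ Iio z : Set ℝ) := by
  classical
  let S : Set ℝ := {y ∈ L | #(L ∩ Iio y : Set ℝ) < κ}
  have hS : #S < κ := by
    let A : ℚ → Set ℝ := fun q => if #(L ∩ Iio (q : ℝ) : Set ℝ) < κ then L ∩ Iio (q : ℝ) else ∅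
    have hA : ∀ q, #(A q) < κ := by
      intro q
      by_cases h : #(L ∩ Iio (q : ℝ) : Set ℝ) < κ
      · simpa only [A, if_pos h] using h
      · simp only [A, if_neg h, Cardinal.mk_eq_zero]
        exact Cardinal.aleph0_pos.trans_le (aleph0_le hκ)
    let T : Set ℝ := {y ∈ S | ∀ y' ∈ S, y' ≤ y}
    have hT : #T < κ := by
      have : T.Subsingleton := fun a ha b hb => le_antisymm (hb.2 a ha.1) (ha.2 b hb.1)
      exact (Cardinal.mk_le_one_iff_set_subsingleton.2 this).trans_lt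
        (Cardinal.one_lt_aleph0.trans_le (aleph0_le hκ))
    have hsub : S ⊆ (⋃ q, A q) ∪ T := by
      intro y hy
      by_cases hyT : y ∈ T
      · exact Or.inr hyT
      · left
        have : ∃ y' ∈ S, y < y' := by
          by_contra hcon
          push Not at hcon
          exact hyT ⟨hy, hcon⟩
        obtain ⟨y', hy', hlt⟩ := this
        obtain ⟨q, hq1, hq2⟩ := exists_rat_btwn hlt
        have h1 : #(L ∩ Iio (q : ℝ) : Set ℝ) < κ :=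
          (Cardinal.mk_le_mk_of_subset (inter_subset_inter_right _ (Iio_subset_Iio hq2.le))).trans_lt
            hy'.2
        refine mem_iUnion.2 ⟨q, ?_⟩
        simp only [A, if_pos h1]
        exact ⟨hy.1, hq1⟩
    refine (Cardinal.mk_le_mk_of_subset hsub).trans_lt ((Cardinal.mk_union_le _ _).trans_lt ?_)
    exact Cardinal.add_lt_of_lt (aleph0_le hκ) (small_iUnion hκ A hA) hT
  refine ⟨L \ S, sdiff_subset, diff_large (aleph0_le hκ) hL hS, fun z hz => ?_⟩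
  have h1 : κ ≤ #(L ∩ Iio z : Set ℝ) := not_lt.1 fun h => hz.2 ⟨hz.1, h⟩
  refine (diff_large (aleph0_le hκ) h1 hS).trans (Cardinal.mk_le_mk_of_subset ?_)
  rintro y ⟨⟨h2, h3⟩, h4⟩
  exact ⟨⟨h2, h4⟩, h3⟩

lemma exists_core' {κ : Cardinal.{0}} (hκ : ℵ₀ < κ.ord.cof) (L : Set ℝ) (hL : κ ≤ #L) :
    ∃ M ⊆ L, κ ≤ #M ∧ ∀ z ∈ M, κ ≤ #(M ∩ Ioi z : Set ℝ) := by
  have hn : ∀ A : Set ℝ, #((fun x : ℝ => -x) '' A) = #A := fun A =>
    Cardinal.mk_image_eq neg_injective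
  obtain ⟨M, hM1, hM2, hM3⟩ := exists_core hκ ((fun x : ℝ => -x) '' L) (by rwa [hn])
  refine ⟨(fun x : ℝ => -x) '' M, ?_, by rwa [hn], ?_⟩
  · rintro _ ⟨y, hy, rfl⟩
    obtain ⟨x, hx, rfl⟩ := hM1 hy
    simpa using hx
  · rintro _ ⟨z, hz, rfl⟩
    refine (hM3 z hz).trans ?_
    rw [← hn (M ∩ Iio z)]
    apply Cardinal.mk_le_mk_of_subset
    rintro _ ⟨y, ⟨hy1, hy2⟩, rfl⟩
    exact ⟨⟨y, hy1, rfl⟩, (neg_lt_neg (mem_Iio.1 hy2) : -z < -y)⟩

lemma nonempty_of_le {κ : Cardinal.{0}} (hκ : ℵ₀ ≤ κ) {M : Set ℝ} (h : κ ≤ #M) : M.Nonempty := by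
  rw [← nonempty_coe_sort, ← Cardinal.mk_ne_zero_iff]
  exact (Cardinal.aleph0_pos.trans_le (hκ.trans h)).ne'

lemma pull {L M A B : Set ℝ} (f : L → M) (hf : Function.Surjective f) (hA : A ⊆ M)
    (h : ∀ y : L, (f y : ℝ) ∈ A → (y : ℝ) ∈ B) : #A ≤ #B := by
  choose s hs using hf
  refine Cardinal.mk_le_of_injective
    (f := fun a : A => (⟨s ⟨a.1, hA a.2⟩, h _ (by rw [hs]; exact a.2)⟩ : B)) ?_
  intro a b hab
  have h1 : s ⟨a.1, hA a.2⟩ = s ⟨b.1, hA b.2⟩ := Subtype.ext (Subtype.mk.inj hab)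
  have h2 := congrArg f h1
  rw [hs, hs] at h2
  exact Subtype.ext (Subtype.mk.inj h2)

/-- For a cardinal `κ` of uncountable cofinality, in particular for `κ = ℵ₂`, every
`κ`-surjective set of reals of size `κ` is strongly surjective. -/
theorem result (κ : Cardinal.{0}) (hκ : ℵ₀ < κ.ord.cof) (L : Set ℝ) (hL : #L = κ)
    (h : IsKappaSurjective κ L) : StronglySurjective L := by
  have h0 := aleph0_le hκ
  have hsurj : ∀ K : Set ℝ, K ⊆ L → κ ≤ #K → Surjects L K := fun K hK hK' =>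
    h.2 K hK (nonempty_of_le h0 hK') (le_antisymm (hL ▸ Cardinal.mk_le_mk_of_subset hK) hK')
  have hlo : ∀ x ∈ L, κ ≤ #(L ∩ Iio x : Set ℝ) := by
    intro x hx
    obtain ⟨M, hM1, hM2, hM3⟩ := exists_core hκ L h.1
    obtain ⟨f, hf1, hf2⟩ := hsurj M hM1 hM2
    refine (hM3 _ (f ⟨x, hx⟩).2).trans (pull f hf2 inter_subset_left fun y hy => ⟨y.2, ?_⟩)
    exact hf1.reflect_lt (a := y) (b := ⟨x, hx⟩) hy.2
  have hhi : ∀ x ∈ L, κ ≤ #(L ∩ Ioi x : Set ℝ) := by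
    intro x hx
    obtain ⟨M, hM1, hM2, hM3⟩ := exists_core' hκ L h.1
    obtain ⟨f, hf1, hf2⟩ := hsurj M hM1 hM2
    refine (hM3 _ (f ⟨x, hx⟩).2).trans (pull f hf2 inter_subset_left fun y hy => ⟨y.2, ?_⟩)
    exact hf1.reflect_lt (a := ⟨x, hx⟩) (b := y) hy.2
  intro K hK hne
  by_cases hs : K.Subsingleton
  · obtain ⟨x, hx⟩ := hne
    exact ⟨fun _ => ⟨x, hx⟩, monotone_const, fun y => ⟨⟨x, hK hx⟩, Subtype.ext (hs hx y.2)⟩⟩
  obtain ⟨w, hw, x, hx, hwx⟩ := (not_subsingleton_iff.1 hs).exists_lt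
  let K' : Set ℝ := (K ∩ Iio x) ∪ (L ∩ Ici x)
  have hK'L : K' ⊆ L := union_subset (inter_subset_left.trans hK) inter_subset_left
  have hKK' : K ⊆ K' := fun y hy => (lt_or_ge y x).imp (fun h => ⟨hy, h⟩) fun h => ⟨hK hy, h⟩
  obtain ⟨f, hf1, hf2⟩ := hsurj K' hK'L ((hhi x (hK hx)).trans (Cardinal.mk_le_mk_of_subset
    fun y hy => Or.inr ⟨hy.1, mem_Ici.2 (le_of_lt (mem_Ioi.1 hy.2))⟩))
  let P : Set ℝ := {y | ∃ hy : y ∈ L, (f ⟨y, hy⟩ : ℝ) ∈ K}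
  have hPL : P ⊆ L := fun y hy => hy.1
  obtain ⟨z, hz⟩ := hf2 ⟨w, hKK' hw⟩
  have hP : κ ≤ #P := by
    refine (hlo z z.2).trans (Cardinal.mk_le_mk_of_subset ?_)
    rintro y ⟨hy1, hy2⟩
    refine ⟨hy1, ?_⟩
    have h1 : f ⟨y, hy1⟩ ≤ f z := hf1 (le_of_lt hy2)
    rw [hz] at h1
    have h2 : (f ⟨y, hy1⟩ : ℝ) < x := lt_of_le_of_lt h1 hwx
    rcases (f ⟨y, hy1⟩).2 with h3 | h3
    · exact h3.1
    · exact absurd h3.2 (not_le.2 h2)
  obtain ⟨g, hg1, hg2⟩ := hsurj P hPL hP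
  refine ⟨fun y => ⟨f ⟨g y, (g y).2.1⟩, (g y).2.2⟩, fun a b hab => ?_, fun k => ?_⟩
  · exact hf1 (a := ⟨g a, (g a).2.1⟩) (b := ⟨g b, (g b).2.1⟩) (hg1 hab)
  · obtain ⟨u, hu⟩ := hf2 ⟨k, hKK' k.2⟩
    obtain ⟨y, hy⟩ := hg2 ⟨u, u.2, by rw [show (⟨u, u.2⟩ : L) = u from rfl, hu]; exact k.2⟩
    refine ⟨y, Subtype.ext ?_⟩
    have h1 : (⟨g y, (g y).2.1⟩ : L) = u :=
      Subtype.ext (congrArg (Subtype.val : P → ℝ) hy)
    change (f ⟨g y, (g y).2.1⟩ : ℝ) = k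
    rw [h1, hu]

end Pool.Agent.Results.MP_8a117e_lc.KappaSurjective
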